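import Pool.Agent.Q120.GE.Main
import Pool.Agent.Q111.GE.DEV
import Pool.Agent.Q111.GE.EXC
import Pool.Agent.Q111.GE.LAW
import Pool.Agent.Q111.GE.MOM
import Pool.Agent.Q111.GE.SEQ
import Pool.Agent.Q111.GE.SIZE
import Pool.Agent.Q111.GE.SUM
import Pool.Agent.Q26.GE.COND
import Pool.Agent.Q26.GE.JAN
import Pool.Agent.Q26.GE.THIN
import Pool.Agent.Q222.GE.CHAIN
import Pool.Agent.Q222.GE.GA
import Pool.Agent.Q222.GE.ONE
import Pool.Agent.Q222.GE.STEP

/-!
# How far may the law of the primes be from Cramér's model for Goldbach's problem?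

`A` is any random set of integers, `relEntropy μ A (low (k + 1))` the relative entropy (nats) of the law of
`A ∩ [3, 2 ^ (k + 1))` with respect to Cramér's model, `rep S n` the number of ordered representations `n = a + b` with
`a, b ∈ S`, `a, b ≥ 3`, `main n = n / log ^ 2 n`.
-/

set_option autoImplicit false

namespace Pool.Agent.Results.MP_dd84fd_nt.EntropyPhaseDiagram

open Finset MeasureTheory Filter Pool.Agent.Q120.ET Pool.Agent.Q120.GM Pool.Agent.Q120.GE
open scoped Topology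

theorem jobs : Jobs where
  law := Pool.Agent.Q111.GE.t_LAW
  mom := Pool.Agent.Q111.GE.t_MOM
  dev := Pool.Agent.Q111.GE.t_DEV
  thin := Pool.Agent.Q26.GE.t_THIN
  jan := Pool.Agent.Q26.GE.t_JAN
  exc := Pool.Agent.Q111.GE.t_EXC
  ent := Pool.Agent.Q111.GE.t_ENT
  sum := Pool.Agent.Q111.GE.t_SUM
  step := Pool.Agent.Q222.GE.t_STEP
  cond := Pool.Agent.Q26.GE.t_COND
  one := Pool.Agent.Q222.GE.ONE.t_ONE
  chain := Pool.Agent.Q222.GE.CHAIN.t_CHAIN
  size := Pool.Agent.Q111.GE.t_SIZE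
  seq := Pool.Agent.Q111.GE.t_SEQ
  ga := Pool.Agent.Q222.GE.t_GA

/-- (1) The least relative entropy which allows `m` even numbers without representation in a dyadic block is of the
exact order `2 ^ k * min (m / k ^ 2) (1 / k)`.
(2) The exact classes of laws for which almost surely all large blocks have fewer than `m k` exceptions.
(3) The exact classes of laws for which all large even numbers have the expected number of representations, or at
least `δ n / log ^ 2 n` of them, or only one. -/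
theorem result :
    (∃ C : ℝ, 0 < C ∧ ∃ K₀ : ℕ, ∀ k m : ℕ, K₀ ≤ k → 1 ≤ m →
      (∀ (Ω : Type) [MeasurableSpace Ω] (μ : Measure Ω) [IsProbabilityMeasure μ] (A : Ω → Set ℕ), IsRandomSet A →
        μ.real {ω | m ≤ exc (1 / 100) (A ω) k} ≤ C * (1 + relEntropy μ A (low (k + 1))) / cost k m) ∧
      (4 * m ≤ 2 ^ k →
        ∃ (Ω : Type) (_ : MeasurableSpace Ω) (μ : Measure Ω) (_ : IsProbabilityMeasure μ) (A : Ω → Set ℕ),
          IsRandomSet A ∧ relEntropy μ A (low (k + 1)) ≤ C * cost k m ∧ ∀ᵐ ω ∂μ, m ≤ zero (A ω) k)) ∧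
    (∀ (d : ℕ → ℝ) (m : ℕ → ℕ), Monotone d → (∀ k, 0 ≤ d k) → Monotone m → (∀ k, 1 ≤ m k) →
      (∀ᶠ k in atTop, 4 * m k ≤ 2 ^ k) →
        (Summable (fun k => d k / cost k (m k)) ↔ AllSets d (fun S => ∀ᶠ k in atTop, exc (1 / 100) S k < m k)) ∧
        (Summable (fun k => d k / cost k (m k)) ↔ AllSets d (fun S => ∀ᶠ k in atTop, zero S k < m k)) ∧
        (¬ Summable (fun k => d k / cost k (m k)) → SomeSet d (fun S => ∃ᶠ k in atTop, m k ≤ zero S k))) ∧
    (∀ d : ℕ → ℝ, Monotone d → (∀ k, 0 ≤ d k) →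
      (Summable (fun k : ℕ => d k * k ^ 2 / 2 ^ k) ↔
        AllSets d (fun S => ∀ ε : ℝ, 0 < ε → ∀ᶠ n : ℕ in atTop, |(rep S n : ℝ) - main n| ≤ ε * main n)) ∧
      (Summable (fun k : ℕ => d k * k ^ 2 / 2 ^ k) ↔
        AllSets d (fun S => ∃ δ : ℝ, 0 < δ ∧ ∀ᶠ n : ℕ in atTop, Even n → δ * main n ≤ rep S n)) ∧
      (Summable (fun k : ℕ => d k * k ^ 2 / 2 ^ k) ↔ AllSets d (fun S => ∀ᶠ n : ℕ in atTop, Even n → 0 < rep S n)) ∧
      (¬ Summable (fun k : ℕ => d k * k ^ 2 / 2 ^ k) →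
        SomeSet d (fun S => ∃ᶠ k in atTop, rep S (2 ^ (k + 1)) = 0))) := by
  refine ⟨?_, fun d m hd hd0 hm hm1 hm4 => part_three jobs hd hd0 hm hm1 hm4, fun d hd hd0 => part_four jobs hd hd0⟩
  obtain ⟨K₀, hK₀, h1⟩ := part_one jobs.law jobs.thin jobs.jan jobs.exc jobs.ent
  obtain ⟨C, hC0, h2⟩ := part_two jobs
  refine ⟨C + 40000, by linarith, K₀, fun k m hk hm => ⟨fun Ω _ μ _ A hA => ?_, fun hm4 => ?_⟩⟩
  · by_cases hneg : 0 ≤ 1 + relEntropy μ A (low (k + 1))
    · refine (h1 k hk m hm Ω μ A hA).trans ?_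
      have hc := cost_pos (k := k) (m := m) (by omega) hm
      apply div_le_div_of_nonneg_right _ hc.le
      exact mul_le_mul_of_nonneg_right (by linarith) hneg
    · have h3 := h1 k hk m hm Ω μ A hA
      have hc := cost_pos (k := k) (m := m) (by omega) hm
      have h4 : 40000 * (1 + relEntropy μ A (low (k + 1))) / cost k m < 0 :=
        div_neg_of_neg_of_pos (by linarith) hc
      have h5 : 0 ≤ μ.real {ω | m ≤ exc (1 / 100) (A ω) k} := measureReal_nonneg
      linarith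
  · obtain ⟨Ω, mΩ, μ, hμ, A, hA, hA1, hA2⟩ := h2 k m (by omega) hm hm4
    refine ⟨Ω, mΩ, μ, hμ, A, hA, hA1.trans ?_, hA2⟩
    have hc := cost_pos (k := k) (m := m) (by omega) hm
    exact mul_le_mul_of_nonneg_right (by linarith) hc.le

end Pool.Agent.Results.MP_dd84fd_nt.EntropyPhaseDiagram
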