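import Pool.Agent.Q145.GL.All
import Pool.Agent.Q145.LS.Bri

set_option autoImplicit false
set_option maxHeartbeats 4000000

/-!
# Goldbach representations with a common prime and independent Liouville signs

For `N_1, ..., N_K` in `(3X+1, 4X+1]` let `P_N` be the set of the primes `X < p ≤ 2X` for which `N_1 - p, ..., N_K - p` are
all prime: Goldbach representations of the even numbers `N_i` with one common prime `p`.  For almost all admissible `N` the
set `P_N` has `(1 + o(1)) 𝔖(N) X / log^(K+1) X` elements, and the signs `λ(c_1 p + m_1), ..., λ(c_L p + m_L)` of the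
Liouville function along `P_N`, for any nonzero integers `c_j` (e.g. `λ(m - p)`, `λ(p + m)`), are independent and uniform,
and independent of any given weight `w(p)`, in mean square over the `m_j`.  Here `K`, `L` and the `|c_j|` grow with `X`, up to
a bound `Q`:

* for every `X` and `Q = A log log X`;
* for arbitrarily large `X` and `Q = c log X / log log X` (for `K` the natural range up to the constant);
* for every `X` and `Q = c log X / log log X`, unless there is an exceptional zero.
-/

namespace Pool.Agent.Results.MP_dd84fd_nt.GoldbachChowla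

open Finset Filter

open scoped Classical

/-- For a prime `p`: the number of classes `n` modulo `p` for which `p` divides `n` or one of the `N_i - n`. -/
def classes {K : ℕ} (N : Fin K → ℕ) (p : ℕ) : ℕ :=
  ((range p).filter fun n : ℕ => (p : ℤ) ∣ n * ∏ i, ((N i : ℤ) - n)).card

/-- The forms `n, N_1 - n, ..., N_K - n` have no fixed prime divisor. -/
def Admissible {K : ℕ} (N : Fin K → ℕ) : Prop := ∀ p : ℕ, p.Prime → classes N p < p

/-- The partial products (primes up to `w`) of the singular series of the `K + 1` forms. -/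
noncomputable def partialSeries {K : ℕ} (N : Fin K → ℕ) (w : ℕ) : ℝ :=
  ∏ p ∈ (Icc 1 w).filter Nat.Prime, (1 - (classes N p : ℝ) / p) / (1 - 1 / (p : ℝ)) ^ (K + 1)

/-- The singular series: the limit of the partial products. -/
noncomputable def series {K : ℕ} (N : Fin K → ℕ) : ℝ := limUnder atTop (partialSeries N)

/-- The primes `X < p ≤ 2 X` for which all the `N_i - p` are prime. -/
def points {K : ℕ} (X : ℕ) (N : Fin K → ℕ) : Finset ℕ := (Ioc X (2 * X)).filter fun p => p.Prime ∧ ∀ i, (N i - p).Prime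

/-- The admissible `N` with `3 X + 1 < N_i ≤ 4 X + 1`. -/
noncomputable def targets (X K : ℕ) : Finset (Fin K → ℕ) :=
  (Fintype.piFinset fun _ => Ioc (3 * X + 1) (4 * X + 1)).filter Admissible

/-- The Liouville function. -/
noncomputable def liouville (n : ℕ) : ℝ := (-1) ^ (ArithmeticFunction.cardFactors n)

/-- The `m` for the slope `c`: `0 < m ≤ c X` for `c > 0`, and `|c| (3 X + 1) < m ≤ |c| (4 X + 1)` for `c < 0`. -/
def box (X : ℕ) (c : ℤ) : Finset ℕ :=
  if 0 < c then Ioc 0 (c.natAbs * X) else Ioc (c.natAbs * (3 * X + 1)) (c.natAbs * (4 * X + 1))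

/-- The deviation for the weight `w`, the signs `e` and the `m_j`:
`|2^L ∑ w(p) [λ(c_j p + m_j) = e_j for all j] - ∑ w(p)|`, the sums over the points `p`. -/
noncomputable def deviation {K L : ℕ} (X : ℕ) (N : Fin K → ℕ) (c : Fin L → ℤ) (e : Fin L → ℝ) (w : ℕ → ℂ) (m : Fin L → ℕ) : ℝ :=
  ‖(2 : ℂ) ^ L * (∑ p ∈ (points X N).filter fun p : ℕ => ∀ j, liouville ((c j * (p : ℤ) + m j).toNat) = e j, w p) - ∑ p ∈ points X N, w p‖

/-- The tuple `N` obeys the law with precision `ε` for the slopes `c_j`. -/
def Obeys {K L : ℕ} (X : ℕ) (c : Fin L → ℤ) (ε : ℝ) (N : Fin K → ℕ) : Prop :=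
  0 < series N ∧ |(points X N).card * Real.log X ^ (K + 1) - series N * X| ≤ ε * (series N * X) ∧
  ∀ (e : Fin L → ℝ) (w : ℕ → ℂ), (∀ j, e j = 1 ∨ e j = -1) → (∀ n, ‖w n‖ ≤ 1) →
    ∑ m ∈ Fintype.piFinset (fun j : Fin L => box X (c j)), (deviation X N c e w m * Real.log X ^ (K + 1)) ^ 2 ≤
      (∏ j, ((box X (c j)).card : ℝ)) * (ε * (series N * X)) ^ 2

/-- The law holds for all but a proportion at most `ε` of the admissible `N`. -/
def Law {L : ℕ} (X K : ℕ) (c : Fin L → ℤ) (ε : ℝ) : Prop :=
  (((targets X K).filter fun N => ¬ Obeys X c ε N).card : ℝ) ≤ ε * (targets X K).card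

/-- The law for `K + L ≤ Q` and all nonzero slopes `|c_j| ≤ Q`. -/
def Holds (X Q : ℕ) (ε : ℝ) : Prop :=
  ∀ K L : ℕ, K + L ≤ Q → ∀ c : Fin L → ℤ, (∀ j, c j ≠ 0 ∧ |c j| ≤ Q) → Law X K c ε

/-- There is no exceptional zero at the scale `X`: the real zeros `β` of the primitive quadratic
characters of conductor `1 < r ≤ exp (log X / log log X)` are at most `1 - C log log X / log X`. -/
def NoExceptionalZero (C : ℝ) (X : ℕ) : Prop :=
  ∀ (r : ℕ) [NeZero r], 1 < r → (r : ℝ) ≤ Real.exp (Real.log X / Real.log (Real.log X)) →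
    ∀ χ : DirichletCharacter ℂ r, χ.IsPrimitive → χ ^ 2 = 1 → ∀ β : ℝ, χ.LFunction β = 0 →
      β ≤ 1 - C * (Real.log (Real.log X) / Real.log X)

open Pool.Agent.Q145.LS Pool.Agent.Q145.GL Pool.Agent.Q145.HC

/-- the slopes `-1` -/
def mo (K : ℕ) : Fin K → ℤ := fun _ => -1

theorem classes_eq {K : ℕ} (N : Fin K → ℕ) {p : ℕ} (hp : p.Prime) : classes N p = nuS (mo K) N p := by
  have h := nuS_neg (fun _ : Fin K => 1) N hp
  have e : (fun _ : Fin K => -((1 : ℕ) : ℤ)) = mo K := by
    funext i
    simp [mo]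
  rw [e] at h
  rw [h]
  unfold classes
  congr 1
  apply filter_congr
  intro n _
  simp

theorem adm_iff {K : ℕ} (N : Fin K → ℕ) : Admissible N ↔ AdmS (mo K) N := by
  unfold Admissible AdmS
  refine forall_congr' fun p => forall_congr' fun hp => ?_
  rw [classes_eq N hp]

theorem partial_eq {K : ℕ} (N : Fin K → ℕ) : partialSeries N = singPS (mo K) N := by
  funext w
  unfold partialSeries singPS locS
  refine prod_congr rfl fun p hp => ?_
  rw [classes_eq N (mem_filter.1 hp).2]

theorem series_eq {K : ℕ} (N : Fin K → ℕ) : series N = singS (mo K) N := by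
  unfold series singS
  rw [partial_eq]

theorem box_eq (X : ℕ) (c : ℤ) (hc : c ≠ 0) : box X c = bx X c := by
  unfold box
  split_ifs with h
  · obtain ⟨a, ha⟩ := Int.eq_ofNat_of_zero_le h.le
    subst ha
    rw [bx_pos X (by omega)]
    ext n
    simp only [mem_Ioc, mem_Icc, Int.natAbs_natCast]
    omega
  · obtain ⟨a, ha⟩ := Int.eq_ofNat_of_zero_le (show 0 ≤ -c by omega)
    have : c = -(a : ℤ) := by omega
    subst this
    rw [bx_neg]
    simp

theorem box_card (X : ℕ) (c : ℤ) : (box X c).card = c.natAbs * X := by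
  unfold box
  split_ifs with h
  · simp
  · rw [Nat.card_Ioc, ← Nat.mul_sub]
    congr 1
    omega

theorem points_eq {K : ℕ} (X : ℕ) (N : Fin K → ℕ) : points X N = ptsS X (mo K) N := by
  unfold points ptsS
  apply filter_congr
  intro p _
  have h : ∀ i, vl (mo K i) p (N i) = N i - p := by
    intro i
    have := vl_neg 1 p (N i)
    rw [one_mul] at this
    rw [← this]
    simp [mo]
  simp only [h]

theorem lgs_eq (X K : ℕ) : lgs X (mo K) = Real.log X ^ (K + 1) := by
  unfold lgs mo
  simp
  ring

theorem obeys_iff {K L : ℕ} (X : ℕ) (c : Fin L → ℤ) (hc : ∀ j, c j ≠ 0) (ε : ℝ) (N : Fin K → ℕ) :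
    Obeys X c ε N ↔ (0 < singS (mo K) N ∧ |cntS X (mo K) N * lgs X (mo K) - singS (mo K) N * X| ≤ ε * (singS (mo K) N * X) ∧ SignsS X (mo K) c ε N) := by
  have hb : (fun j : Fin L => box X (c j)) = fun j => bx X (c j) := by
    funext j
    exact box_eq X (c j) (hc j)
  have hcd : ∀ j, ((box X (c j)).card : ℝ) = (((c j).natAbs * X : ℕ) : ℝ) := fun j => by rw [box_card]
  have hct : cntS X (mo K) N = (points X N).card := by
    rw [points_eq, ptsS_card]
  unfold Obeys SignsS deviation
  rw [lgs_eq, hct, series_eq, points_eq, hb]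
  simp only [hcd]
  rfl

theorem targets_eq (X K : ℕ) : targets X K = ATS X (mo K) := by
  unfold targets ATS
  ext b
  simp only [mem_filter, Fintype.mem_piFinset]
  rw [adm_iff]
  refine and_congr ?_ Iff.rfl
  refine forall_congr' fun i => ?_
  have := bx_neg X 1
  rw [one_mul, one_mul] at this
  rw [← this]
  simp [mo]

theorem law_of {K L : ℕ} {X : ℕ} {c : Fin L → ℤ} (hc : ∀ j, c j ≠ 0) {ε : ℝ} (h : HLl X (mo K) c ε) : Law X K c ε := by
  unfold HLl at h
  unfold Law
  rw [targets_eq]
  simp only [obeys_iff X c hc]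
  exact h

theorem holds_of {X Q : ℕ} {ε : ℝ} (h : PSL X (Q + 1) ε) : Holds X Q ε := by
  intro K L hKL c hc
  refine law_of (fun j => (hc j).1) (h K L (mo K) c (by omega) (fun i => ⟨?_, ?_⟩) (fun j => ⟨(hc j).1, ?_⟩))
  · unfold mo
    norm_num
  · unfold mo
    simp
  · have := (hc j).2
    rw [Int.abs_eq_natAbs] at this
    have h2 : (c j).natAbs ≤ Q := by exact_mod_cast this
    omega

/-- **Theorem.** (0) The singular series converges and is positive for admissible tuples of distinct positive integers. The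
Hardy-Littlewood-Goldbach law with Liouville signs, for almost all `N`: (1) for every large `X` and `Q = A log log X`;
(2) for arbitrarily large `X` and `Q = c log X / log log X`; (3) for every large `X` and `Q = c log X / log log X`, unless
there is an exceptional zero at the scale `X`. -/
theorem result :
    (∀ (K : ℕ) (N : Fin K → ℕ), Function.Injective N → (∀ i, 1 ≤ N i) → Admissible N →
      Tendsto (partialSeries N) atTop (nhds (series N)) ∧ 0 < series N) ∧
    (∀ A ε : ℝ, 0 < ε → ∀ᶠ X : ℕ in atTop, ∀ Q : ℕ, (Q : ℝ) ≤ A * Real.log (Real.log X) → Holds X Q ε) ∧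
    (∃ c : ℝ, 0 < c ∧ ∀ ε : ℝ, 0 < ε → ∃ᶠ X : ℕ in atTop, ∀ Q : ℕ,
      (Q : ℝ) ≤ c * (Real.log X / Real.log (Real.log X)) → Holds X Q ε) ∧
    (∃ c C : ℝ, 0 < c ∧ 0 < C ∧ ∀ ε : ℝ, 0 < ε → ∀ᶠ X : ℕ in atTop, NoExceptionalZero C X →
      ∀ Q : ℕ, (Q : ℝ) ≤ c * (Real.log X / Real.log (Real.log X)) → Holds X Q ε) := by
  have hLL : Tendsto (fun X : ℕ => Real.log X / Real.log (Real.log X)) atTop atTop := by
    have h1 : Tendsto (fun x : ℝ => x / Real.log x) atTop atTop := by
      have h2 : Tendsto (fun x : ℝ => Real.log x / x) atTop (nhdsWithin 0 (Set.Ioi 0)) := by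
        rw [tendsto_nhdsWithin_iff]
        refine ⟨?_, ?_⟩
        · have := Real.isLittleO_log_id_atTop.tendsto_div_nhds_zero
          simpa using this
        · filter_upwards [eventually_gt_atTop 1] with x hx
          have := Real.log_pos hx
          exact div_pos this (by linarith)
      refine (tendsto_inv_nhdsGT_zero.comp h2).congr fun x => ?_
      simp
    exact h1.comp Pool.Agent.Q145.SZ.log_tendsto
  refine ⟨?_, ?_, ?_, ?_⟩
  · intro K N hi h1 hadm
    rw [partial_eq, series_eq]
    refine series_convS K _ N (fun i => by unfold mo; norm_num) h1 ?_ ((adm_iff N).1 hadm)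
    intro i j hij h
    apply hij
    apply hi
    unfold mo at h
    have : (N j : ℤ) = N i := by linarith
    exact_mod_cast this.symm
  · intro A ε hε
    filter_upwards [Pool.Agent.Q145.GL.main1 (|A| + 1) ε hε, Pool.Agent.Q145.SZ.ll_tendsto.eventually_ge_atTop 1] with X h hX Q hQ
    apply holds_of
    apply h
    have h1 : A * Real.log (Real.log X) ≤ |A| * Real.log (Real.log X) := mul_le_mul_of_nonneg_right (le_abs_self A) (by linarith)
    push_cast
    nlinarith
  · obtain ⟨c, hc, h⟩ := Pool.Agent.Q145.GL.main2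
    refine ⟨c / 2, by positivity, fun ε hε => ?_⟩
    refine ((h ε hε).and_eventually (hLL.eventually_ge_atTop (2 / c))).mono ?_
    rintro X ⟨h1, h2⟩ Q hQ
    apply holds_of
    apply h1
    rw [div_le_iff₀ hc] at h2
    push_cast
    linarith
  · obtain ⟨c, C, hc, hC, h⟩ := Pool.Agent.Q145.GL.main3
    refine ⟨c / 2, C, by positivity, hC, fun ε hε => ?_⟩
    filter_upwards [h ε hε, hLL.eventually_ge_atTop (2 / c)] with X h1 h2 hne Q hQ
    apply holds_of
    apply h1 hne
    rw [div_le_iff₀ hc] at h2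
    push_cast
    linarith

end Pool.Agent.Results.MP_dd84fd_nt.GoldbachChowla
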