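import Pool.Agent.TH899.UG.ExW
import Pool.Agent.Q157.GD.Alt

/-!
# Goldbach for one third of the even numbers near every integer, or almost all differences of primes

`g n` is the number of ordered representations of `n` as a sum of two primes, as in the problem. For every
`ε > 0` there is `C` such that for every `η > 0`, EVERY large `X`, every modulus `2 q` and every window
`(u, u + L]` with `L ≥ C` and `C q (u + L) ≤ X` at least one of the following holds.

* All but at most `ε L` of the multiples `2 q k`, `u < k ≤ u + L`, of `2 q` are differences of two primes,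
  in the strong sense that `p + 2 q k` is prime for at least `X ^ (1 - η)` primes `p ≤ X`.
* For every even `a` between `X / 2` and `X` and every `H ≥ C (u + L)` with `C q H ≤ X`, at least
  `(1/3 - ε) H` of the `H` even numbers `a, a + 2 q, ..., a + 2 q (H - 1)` satisfy `g n ≥ X ^ (1 - η)`.

With `q = 1`, `u = 0` and `L = C`: if a positive proportion of the even numbers up to a constant are not
differences of primes of size up to `X`, then a third of the even numbers of all intervals of bounded
length in `[X / 2, X]` are sums of two primes. No exceptional set of integers near `X` has to be excluded.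

Proof. If both fail, the pairs `(m, t)` with `3 ∣ m t` for which `t` is not a difference and none of
`m - t`, `m`, `m + t` is a sum of two primes (in many ways) have positive density. By the density
Hales-Jewett theorem there are `(m, t)` and `d` such that this holds for all the pairs `(m + d i, t + d j)`
with small `i`, `j`. This contradicts the uniform coloured Maynard-Tao theorem
(`Pool.Agent.TH899.UG.NW.exactW`) for the four classes of forms `n + d i`, `n + t + d i`, `m - n + d i` and
`m - t - n + d i`, two of which contain primes for many common `n`.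
-/

set_option autoImplicit false

namespace Pool.Agent.Results.MP_dd84fd_nt.GoldbachOrDifferences

open Filter

/-- the number of ordered representations of `n` as a sum of two primes -/
noncomputable def g (n : ℕ) : ℕ := {x : ℕ × ℕ | x.1.Prime ∧ x.2.Prime ∧ x.1 + x.2 = n}.ncard

/-- the number of the primes `p ≤ X` for which `p + h` is a prime -/
noncomputable def pairs (X h : ℕ) : ℕ := {p : ℕ | p ≤ X ∧ p.Prime ∧ (p + h).Prime}.ncard

theorem sums_le (X m : ℕ) : Q157.GD.sums X m ≤ g m := by
  unfold Q157.GD.sums g
  have hfin : {x : ℕ × ℕ | x.1.Prime ∧ x.2.Prime ∧ x.1 + x.2 = m}.Finite := by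
    refine ((Set.finite_Iic m).prod (Set.finite_Iic m)).subset ?_
    rintro ⟨x, y⟩ ⟨-, -, h⟩
    simp only [Set.mem_prod, Set.mem_Iic]
    simp only at h
    omega
  apply Set.ncard_le_ncard_of_injOn (fun p => (p, m - p)) _ _ hfin
  · rintro p ⟨-, hp, q, hq, h⟩
    have : m - p = q := by omega
    exact ⟨hp, by show (m - p).Prime; rw [this]; exact hq, by show p + (m - p) = m; omega⟩
  · intro p _ p' _ h
    exact (Prod.ext_iff.1 h).1

/-- **One third of the sums of two primes near every integer, or almost all differences.** -/
theorem result (ε : ℝ) (hε : 0 < ε) : ∃ C : ℕ, ∀ η : ℝ, 0 < η → ∀ᶠ X : ℕ in atTop,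
    ∀ q u L : ℕ, 1 ≤ q → C ≤ L → C * (q * (u + L)) ≤ X →
      ({k : ℕ | u < k ∧ k ≤ u + L ∧ (pairs X (2 * q * k) : ℝ) < (X : ℝ) ^ (1 - η)}.ncard : ℝ) ≤ ε * L ∨
      ∀ a H : ℕ, X ≤ 2 * a → a ≤ X → Even a → C * (u + L) ≤ H → C * (q * H) ≤ X →
        (1 / 3 - ε) * (H : ℝ) ≤
          ({s : ℕ | s < H ∧ (X : ℝ) ^ (1 - η) ≤ (g (a + 2 * q * s) : ℝ)}.ncard : ℝ) := by
  classical
  obtain ⟨C, h⟩ := Q157.GD.alt Pool.Agent.TH899.UG.NW.exactW ε hε
  refine ⟨C, fun η hη => ?_⟩
  filter_upwards [h η hη] with X hX q u L hq hL hC
  rcases hX q u L hq hL hC with h1 | h2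
  · left
    refine le_trans (le_of_eq ?_) h1
    rw [← Set.ncard_coe_finset]
    congr 2
    ext k
    simp only [Finset.coe_filter, Finset.mem_Ioc, Set.mem_setOf_eq, and_assoc]
    rfl
  · right
    intro a H ha1 ha2 ha hH hCH
    refine (h2 a H ha1 ha2 ha hH hCH).trans ?_
    rw [← Set.ncard_coe_finset, Nat.cast_le]
    apply Set.ncard_le_ncard _ ((Set.finite_Iio H).subset fun s hs => hs.1)
    intro s hs
    simp only [Finset.coe_filter, Finset.mem_range, Set.mem_setOf_eq] at hs
    exact ⟨hs.1, hs.2.trans (by exact_mod_cast sums_le X _)⟩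

end Pool.Agent.Results.MP_dd84fd_nt.GoldbachOrDifferences
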