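import Pool.Agent.Q236.GW.RegGl

set_option autoImplicit false

/-!
# EVERY even number: primes `p` with `n - p` almost prime, and regular neighbourhoods for almost all of them

Let `n` be a large even number, and let `S` be the set of the PRIMES `p` such that no prime `q ≤ n ^ (1 / r)`
divides `p (n - p)`; for `p < n` the number `n - p` has at most `r` prime factors. Let `D = 𝔖(n) / log ^ 2 n`, with
the singular series `𝔖(n) = 2 C₂ ∏_{p ∣ n, p > 2} (p - 1) / (p - 2) ≥ 2 C₂` of Goldbach's problem. In every interval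
`(u, u + Y]`, `δ₀ n ≤ Y ≤ u`, `u + Y ≤ n`, there are at least `κ Y D` such primes, and all but a proportion `ε` of
them are regular points: ALL intervals of length between `1 / (c D)` (at most of the order `log ^ 2 n`) and `Y`
around them contain the right order of such primes, and these have constant density up to `δ` at all but `B`
dyadic scales. There is no exceptional `n`.
-/

namespace Pool.Agent.Results.MP_dd84fd_nt.RegularPrimes

open Finset Filter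

/-- The twin prime constant: the infimum (the limit) of the decreasing products of `1 - 1 / (p - 1) ^ 2`
over the primes `3 ≤ p ≤ z`. -/
noncomputable def C₂ : ℝ := ⨅ z : ℕ, ∏ p ∈ (Finset.Icc 3 z).filter Nat.Prime, (1 - 1 / ((p : ℝ) - 1) ^ 2)

/-- The singular series `2 C₂ ∏_{p ∣ n, p > 2} (p - 1) / (p - 2)`. -/
noncomputable def 𝔖 (n : ℕ) : ℝ :=
  2 * C₂ * ∏ p ∈ n.primeFactors.filter (fun p => 2 < p), ((p : ℝ) - 1) / ((p : ℝ) - 2)

/-- The expected density of the primes `p` with `n - p` prime. -/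
noncomputable def dens (n : ℕ) : ℝ := 𝔖 n / Real.log n ^ 2

/-- The primes `p` such that no prime `q ≤ n ^ (1 / r)` divides `p (n - p)`. -/
def S (n r : ℕ) : Set ℕ :=
  {p | p.Prime ∧ ∀ q : ℕ, q.Prime → (q : ℝ) ≤ (n : ℝ) ^ (1 / (r : ℝ)) → ¬ (q : ℤ) ∣ (p : ℤ) * (n - p)}

open Classical in
/-- the number of the elements of `A` in `(x, y]` -/
noncomputable def N (A : Set ℕ) (x y : ℕ) : ℕ := ((Finset.Ioc x y).filter (fun m => m ∈ A)).card

/-- All intervals `(m - s, m + t]` with `s, t ≤ Y` of length at least `1 / (c D)` contain the right order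
of elements of `A`, for the density `D`. -/
def RightOrder (A : Set ℕ) (c D : ℝ) (Y m : ℕ) : Prop :=
  ∀ s t : ℕ, s ≤ Y → t ≤ Y → 1 ≤ c * (D * (s + t)) →
    c * (D * (s + t)) ≤ N A (m - s) (m + t) ∧ (N A (m - s) (m + t) : ℝ) ≤ D * (s + t) / c

/-- Up to `δ`, `A` has a constant density on both sides of `m` up to the distance `2 ^ j`. -/
def ConstantDensity (A : Set ℕ) (c D δ : ℝ) (m j : ℕ) : Prop :=
  ∃ lam : ℝ, c ≤ lam ∧ lam ≤ 1 / c ∧ ∀ s t : ℕ, s ≤ 2 ^ j → t ≤ 2 ^ j →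
    |(N A (m - s) (m + t) : ℝ) - lam * (D * (s + t))| ≤ δ * (D * 2 ^ j)

open Classical in
/-- The number of the scales `1 / (c D) ≤ 2 ^ j ≤ Y` without this property. -/
noncomputable def badScales (A : Set ℕ) (c D δ : ℝ) (Y m : ℕ) : ℕ :=
  ((Finset.range (Nat.log 2 Y + 1)).filter (fun j => 1 ≤ c * (D * (2 : ℝ) ^ j) ∧
    ¬ ConstantDensity A c D δ m j)).card

/-- The elements of `A` that are not regular points of `A`. -/
def Irregular (A : Set ℕ) (c D δ : ℝ) (B Y : ℕ) : Set ℕ :=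
  {m | m ∈ A ∧ ¬ (RightOrder A c D Y m ∧ badScales A c D δ Y m ≤ B)}

open Pool.Agent.W123.RU Pool.Agent.H373R2.T7 Pool.Agent.TH464.PO Pool.Agent.Q236.GW
open Pool.Agent.W123.RU.Poly (Q)

lemma S_eq (n r : ℕ) : PS 1 0 (gl (n : ℤ) (-1)) ⌊(n : ℝ) ^ (1 / (r : ℝ))⌋₊ = S n r := by
  have h0 : (0 : ℝ) ≤ (n : ℝ) ^ (1 / (r : ℝ)) := by positivity
  unfold PS S
  ext m
  have key : ∀ q : ℕ, q.Prime → (Q (gl (n : ℤ) (-1)) q m ↔ (q : ℤ) ∣ (m : ℤ) * (n - m)) := by
    intro q hq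
    rw [gl_Q _ _ q m hq]
    have e : (m : ℤ) * (n + -1 * m) = (m : ℤ) * (n - m) := by ring
    rw [e]
  rw [Set.mem_ofPred_eq, Set.mem_ofPred_eq, one_mul, add_zero]
  constructor
  · rintro ⟨h1, h2⟩
    refine ⟨h1, fun q hq hqn hd => ?_⟩
    exact h2 q (mem_pz.2 ⟨Nat.le_floor hqn, hq⟩) ((key q hq).2 hd)
  · rintro ⟨h1, h2⟩
    refine ⟨h1, fun q hq hd => ?_⟩
    have hqq := (mem_pz.1 hq).2
    exact h2 q hqq (mem_pz' h0 hq) ((key q hqq).1 hd)

lemma few (n r m : ℕ) (hr : 1 ≤ r) (hn : 2 ^ r ≤ n) (hm : 0 < m) (hmn : m ≤ n)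
    (h : ∀ p : ℕ, p.Prime → p ∣ m → (n : ℝ) ^ (1 / (r : ℝ)) < (p : ℝ)) :
    m.primeFactorsList.length ≤ r := by
  have hr0 : (r : ℝ) ≠ 0 := by exact_mod_cast (by omega : r ≠ 0)
  have hX1 : (1 : ℝ) ≤ n := by
    have : 1 ≤ 2 ^ r := Nat.one_le_two_pow
    exact_mod_cast this.trans hn
  have hz1 : 1 ≤ (n : ℝ) ^ (1 / (r : ℝ)) := Real.one_le_rpow hX1 (by positivity)
  apply length_le m r (by omega) _ h _ hz1
  have e : ((n : ℝ) ^ (1 / (r : ℝ))) ^ r = n := by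
    rw [← Real.rpow_natCast, ← Real.rpow_mul (by linarith), one_div, inv_mul_cancel₀ hr0, Real.rpow_one]
  have hmX' : (m : ℝ) ≤ n := by exact_mod_cast hmn
  rw [pow_succ, e]
  nlinarith

lemma SG_ge (n : ℕ) : 2 * C₂ ≤ 𝔖 n := by
  unfold 𝔖
  have hC : 0 < C₂ := by
    have h1 := C2_low
    have h2 : C₂ = C2 := rfl
    rw [h2]
    linarith
  apply le_mul_of_one_le_right (by linarith)
  apply Finset.prod_induction _ (fun x : ℝ => 1 ≤ x) (fun a b ha hb => one_le_mul_of_one_le_of_one_le ha hb) le_rfl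
  intro p hp
  have hp2 := (Finset.mem_filter.1 hp).2
  have h3 : (3 : ℝ) ≤ p := by exact_mod_cast (by omega : 3 ≤ p)
  rw [le_div_iff₀ (by linarith)]
  linarith

/-- **EVERY even number: almost all primes `p` with `n - p` almost prime have regular neighbourhoods.** -/
theorem result :
    (0 < C₂ ∧ ∀ n : ℕ, 2 * C₂ ≤ 𝔖 n) ∧
    (∀ n r p : ℕ, 1 ≤ r → 2 ^ r ≤ n → p ∈ S n r → p < n → (n - p).primeFactorsList.length ≤ r) ∧
    ∀ δ₀ : ℝ, 0 < δ₀ → δ₀ ≤ 1 → ∃ r₀ : ℕ, 2 ≤ r₀ ∧ ∀ r : ℕ, r₀ ≤ r → ∃ κ : ℝ, 0 < κ ∧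
      ∀ ε : ℝ, 0 < ε → ∃ c : ℝ, 0 < c ∧ ∀ δ : ℝ, 0 < δ → ∃ B : ℕ, ∀ᶠ n : ℕ in atTop, Even n →
          ∀ u Y : ℕ, δ₀ * n ≤ Y → Y ≤ u → u + Y ≤ n →
            κ * (Y * dens n) ≤ N (S n r) u (u + Y) ∧
            (N (Irregular (S n r) c (dens n) δ B Y) u (u + Y) : ℝ) ≤ ε * N (S n r) u (u + Y) := by
  refine ⟨⟨?_, SG_ge⟩, ?_, ?_⟩
  · have h1 := C2_low
    have h2 : C₂ = C2 := rfl
    rw [h2]
    linarith
  · intro n r p hr hn hp hpn
    apply few n r _ hr hn (by omega) (by omega)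
    intro q hq hd
    by_contra hcon
    rw [not_lt] at hcon
    apply hp.2 q hq hcon
    have h1 : (q : ℤ) ∣ ((n - p : ℕ) : ℤ) := Int.natCast_dvd_natCast.2 hd
    rw [Nat.cast_sub hpn.le] at h1
    exact h1.mul_left _
  · intro δ₀ hδ₀ hδ₁
    obtain ⟨r0, hr0, h⟩ := reg_gl 1 δ₀ one_pos hδ₀ hδ₁
    refine ⟨r0, hr0, ?_⟩
    intro r hr
    obtain ⟨κ, hκ, h2⟩ := h r hr
    refine ⟨κ, hκ, ?_⟩
    intro ε hε
    obtain ⟨c, hc, h3⟩ := h2 ε hε
    refine ⟨c, hc, fun δ hδ => ?_⟩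
    obtain ⟨B, h4⟩ := h3 δ hδ
    refine ⟨B, ?_⟩
    filter_upwards [h4, eventually_ge_atTop 1] with n hn hn1
    intro hev u Y hY hYu huY
    have hn0 : (1 : ℝ) ≤ n := by exact_mod_cast hn1
    have h5 := hn (n : ℤ) (-1) isCoprime_one_right.neg_right (by
        rw [mul_neg, mul_one, even_neg]
        exact_mod_cast hev) (by omega) (by norm_num) (by
        rw [Real.rpow_one]
        push_cast
        rw [abs_of_nonneg (by linarith)]) (by
        rw [Real.rpow_one]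
        push_cast
        rw [abs_neg, abs_one]
        exact hn0) u Y hY hYu huY
    have e : ((n : ℤ) * -1).natAbs = n := by omega
    rw [S_eq, e] at h5
    exact h5

end Pool.Agent.Results.MP_dd84fd_nt.RegularPrimes
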